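import Pool.Agent.H32.RK.TargetsA

/-!
# Row CMP: coordinates and sizes
-/

set_option autoImplicit false

open Finset NumberField Pool.Agent.H32.RQ Pool.Agent.H32.RK

namespace Pool.Agent.H58.RK

theorem place_int {K : Type} [Field K] [NumberField K] (w : InfinitePlace K) (n : ℤ) :
    w (n : K) = |(n : ℝ)| := by
  rw [← InfinitePlace.norm_embedding_eq, map_intCast, Complex.norm_intCast]

theorem place_sum_le {K : Type} [Field K] [NumberField K] (w : InfinitePlace K) {α : Type}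
    (s : Finset α) (f : α → K) : w (∑ i ∈ s, f i) ≤ ∑ i ∈ s, w (f i) := by
  rw [← InfinitePlace.norm_embedding_eq, map_sum]
  refine (norm_sum_le _ _).trans (le_of_eq ?_)
  exact Finset.sum_congr rfl fun i _ => InfinitePlace.norm_embedding_eq w (f i)

/-- the trace is bounded by the sum over the embeddings -/
theorem trace_le {K : Type} [Field K] [NumberField K] (a : K) :
    |((Algebra.trace ℚ K a : ℚ) : ℝ)| ≤ ∑ σ : K →ₐ[ℚ] ℂ, ‖σ a‖ := by
  have h := trace_eq_sum_embeddings (K := ℚ) (L := K) ℂ (x := a)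
  have h2 : ‖(algebraMap ℚ ℂ (Algebra.trace ℚ K a))‖ = |((Algebra.trace ℚ K a : ℚ) : ℝ)| := by
    have h3 : algebraMap ℚ ℂ (Algebra.trace ℚ K a) = (((Algebra.trace ℚ K a : ℚ) : ℝ) : ℂ) := by
      simp
    rw [h3, Complex.norm_real, Real.norm_eq_abs]
  rw [← h2, h]
  exact norm_sum_le _ _

theorem pf_CMP (K : Type) [Field K] [NumberField K] : T_CMP K := by
  classical
  intro ι _ ω
  have hcard : Fintype.card ι = dg K := by
    rw [← Module.finrank_eq_card_basis ω, RingOfIntegers.rank]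
  refine ⟨hcard, ?_⟩
  let β : Module.Basis ι ℚ K := ω.localizationLocalization ℚ (nonZeroDivisors ℤ) K
  let γ : Module.Basis ι ℚ K := LinearMap.BilinForm.dualBasis (Algebra.traceForm ℚ K)
    (traceForm_nondegenerate ℚ K) β
  have hrep : ∀ (a : 𝓞 K) (l : ι), ((ω.repr a l : ℤ) : ℚ) =
      Algebra.trace ℚ K (γ l * (a : K)) := by
    intro a l
    have h1 : β.repr (a : K) l = ((ω.repr a l : ℤ) : ℚ) :=
      ω.localizationLocalization_repr_algebraMap ℚ (nonZeroDivisors ℤ) K a l
    rw [← h1]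
    have h2 : (a : K) = ∑ j, β.repr (a : K) j • β j := (β.sum_repr (a : K)).symm
    have h3 : Algebra.trace ℚ K (γ l * (a : K)) = Algebra.traceForm ℚ K (γ l) (a : K) := rfl
    rw [h3]
    conv_rhs => rw [h2, map_sum]
    simp only [map_smul, smul_eq_mul]
    have h4 : ∀ j, Algebra.traceForm ℚ K (γ l) (β j) = if j = l then 1 else 0 := fun j =>
      LinearMap.BilinForm.apply_dualBasis_left (traceForm_nondegenerate ℚ K) β l j
    simp only [h4, mul_ite, mul_one, mul_zero]
    rw [Finset.sum_ite_eq' Finset.univ l, if_pos (Finset.mem_univ l)]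
  set C1 : ℝ := ∑ l, ∑ σ : K →ₐ[ℚ] ℂ, ‖σ (γ l)‖ with hC1
  set C2 : ℝ := ∑ w : InfinitePlace K, ∑ l, w (ω l : K) with hC2
  have hC1' : 0 ≤ C1 := Finset.sum_nonneg fun l _ => Finset.sum_nonneg fun σ _ => norm_nonneg _
  have hw0 : ∀ (w : InfinitePlace K) (a : K), 0 ≤ w a := fun w a => apply_nonneg w a
  have hC2' : 0 ≤ C2 := Finset.sum_nonneg fun w _ => Finset.sum_nonneg fun l _ => hw0 w _
  refine ⟨1 + C1 + C2, by linarith, ?_, ?_⟩
  · intro a X hX l
    have hX0 : 0 ≤ X := by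
      obtain ⟨w⟩ : Nonempty (InfinitePlace K) := inferInstance
      exact (hw0 w _).trans (hX w)
    have h1 : ((ω.repr a l : ℤ) : ℝ) = ((Algebra.trace ℚ K (γ l * (a : K)) : ℚ) : ℝ) := by
      rw [← hrep a l]
      push_cast
      rfl
    rw [h1]
    calc |((Algebra.trace ℚ K (γ l * (a : K)) : ℚ) : ℝ)|
        ≤ ∑ σ : K →ₐ[ℚ] ℂ, ‖σ (γ l * (a : K))‖ := trace_le _
      _ ≤ ∑ σ : K →ₐ[ℚ] ℂ, ‖σ (γ l)‖ * X := by
          refine Finset.sum_le_sum fun σ _ => ?_
          rw [map_mul, norm_mul]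
          exact mul_le_mul_of_nonneg_left (hX (InfinitePlace.mk (σ : K →+* ℂ))) (norm_nonneg _)
      _ = (∑ σ : K →ₐ[ℚ] ℂ, ‖σ (γ l)‖) * X := by rw [Finset.sum_mul]
      _ ≤ C1 * X := by
          refine mul_le_mul_of_nonneg_right ?_ hX0
          exact Finset.single_le_sum (f := fun l => ∑ σ : K →ₐ[ℚ] ℂ, ‖σ (γ l)‖)
            (fun l _ => Finset.sum_nonneg fun σ _ => norm_nonneg _) (Finset.mem_univ l)
      _ ≤ (1 + C1 + C2) * X := mul_le_mul_of_nonneg_right (by linarith) hX0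
  · intro v X hX w
    have hX0 : 0 ≤ X := by
      have hne : 0 < Fintype.card ι := by rw [hcard]; exact Module.finrank_pos
      obtain ⟨l⟩ := Fintype.card_pos_iff.1 hne
      exact (abs_nonneg _).trans (hX l)
    have h1 : (el ω v : K) = ∑ l, ((v l : ℤ) : K) * (ω l : K) := by
      unfold el
      show algebraMap (𝓞 K) K (∑ l, v l • ω l) = _
      rw [map_sum]
      refine Finset.sum_congr rfl fun l _ => ?_
      rw [zsmul_eq_mul, map_mul, map_intCast]
    rw [h1]
    calc w (∑ l, ((v l : ℤ) : K) * (ω l : K)) ≤ ∑ l, w (((v l : ℤ) : K) * (ω l : K)) :=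
          place_sum_le w _ _
      _ ≤ ∑ l, X * w (ω l : K) := by
          refine Finset.sum_le_sum fun l _ => ?_
          rw [map_mul, place_int]
          exact mul_le_mul_of_nonneg_right (hX l) (hw0 w _)
      _ = X * ∑ l, w (ω l : K) := by rw [Finset.mul_sum]
      _ ≤ X * C2 := by
          refine mul_le_mul_of_nonneg_left ?_ hX0
          exact Finset.single_le_sum (f := fun w : InfinitePlace K => ∑ l, w (ω l : K))
            (fun w _ => Finset.sum_nonneg fun l _ => hw0 w _) (Finset.mem_univ w)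
      _ ≤ (1 + C1 + C2) * X := by nlinarith

end Pool.Agent.H58.RK
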