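import Pool.Agent.H32.RK.TargetsA

/-!
# Rows COV and COI: covering by the integers and by the elements of an ideal
-/

set_option autoImplicit false

open Finset NumberField Pool.Agent.H32.RQ Pool.Agent.H32.RK

namespace Pool.Agent.H58.RK

theorem pf_COV (K : Type) [Field K] [NumberField K] : T_COV K := by
  classical
  set e := mixedEmbedding.latticeBasis K with he
  set C : ℝ := ∑ i, ‖e i‖ with hC
  have hC0 : 0 ≤ C := Finset.sum_nonneg fun i _ => norm_nonneg _
  refine ⟨1 + C, by linarith, ?_⟩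
  intro ζ hζ
  let z : mixedEmbedding.mixedSpace K := (fun w => (ζ w.1).re, fun w => ζ w.1)
  let t := e.repr z
  let a : 𝓞 K := ∑ i, (round (t i) : ℤ) • RingOfIntegers.basis K i
  refine ⟨a, fun w => ?_⟩
  have ha : mixedEmbedding K (a : K) = ∑ i, ((round (t i) : ℤ) : ℝ) • e i := by
    have h1 : (a : K) = ∑ i, (round (t i) : ℤ) • (integralBasis K i) := by
      show algebraMap (𝓞 K) K (∑ i, (round (t i) : ℤ) • RingOfIntegers.basis K i) = _
      rw [map_sum]
      refine Finset.sum_congr rfl fun i _ => ?_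
      rw [map_zsmul, integralBasis_apply]
    rw [h1, map_sum]
    refine Finset.sum_congr rfl fun i _ => ?_
    rw [map_zsmul, he, mixedEmbedding.latticeBasis_apply, Int.cast_smul_eq_zsmul]
  have hz : z = ∑ i, t i • e i := (e.sum_repr z).symm
  have hd : ‖mixedEmbedding K (a : K) - z‖ ≤ C := by
    rw [ha]
    conv_lhs => rw [hz]
    rw [← Finset.sum_sub_distrib]
    refine (norm_sum_le _ _).trans ?_
    rw [hC]
    refine Finset.sum_le_sum fun i _ => ?_
    rw [← sub_smul, norm_smul]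
    have h1 : ‖((round (t i) : ℤ) : ℝ) - t i‖ ≤ 1 := by
      rw [Real.norm_eq_abs, abs_sub_comm]
      have := abs_sub_round (t i)
      linarith
    calc ‖((round (t i) : ℤ) : ℝ) - t i‖ * ‖e i‖ ≤ 1 * ‖e i‖ :=
          mul_le_mul_of_nonneg_right h1 (norm_nonneg _)
      _ = ‖e i‖ := one_mul _
  have hw : mixedEmbedding.normAtPlace w (mixedEmbedding K (a : K) - z) ≤ C := by
    refine le_trans ?_ hd
    rw [mixedEmbedding.norm_eq_sup'_normAtPlace]
    exact Finset.le_sup' (fun w => mixedEmbedding.normAtPlace w _) (Finset.mem_univ w)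
  rcases w.isReal_or_isComplex with hr | hc
  · rw [mixedEmbedding.normAtPlace_apply_of_isReal hr] at hw
    have h1 : (mixedEmbedding K (a : K) - z).1 ⟨w, hr⟩ =
        InfinitePlace.embedding_of_isReal hr (a : K) - (ζ w).re := by
      rw [Prod.fst_sub, Pi.sub_apply, mixedEmbedding.mixedEmbedding_apply_isReal]
    rw [h1] at hw
    have h2 : ζ w = (((ζ w).re : ℝ) : ℂ) := by
      apply Complex.ext
      · simp
      · simp [hζ w hr]
    have h3 : w.embedding (a : K) - ζ w =
        ((InfinitePlace.embedding_of_isReal hr (a : K) - (ζ w).re : ℝ) : ℂ) := by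
      conv_lhs => rw [h2, ← InfinitePlace.embedding_of_isReal_apply hr]
      push_cast
      rfl
    rw [h3, Complex.norm_real]
    linarith
  · rw [mixedEmbedding.normAtPlace_apply_of_isComplex hc] at hw
    have h1 : (mixedEmbedding K (a : K) - z).2 ⟨w, hc⟩ = w.embedding (a : K) - ζ w := by
      rw [Prod.snd_sub, Pi.sub_apply, mixedEmbedding.mixedEmbedding_apply_isComplex]
    rw [h1] at hw
    linarith

theorem pf_COI (K : Type) [Field K] [NumberField K] (hLOW : T_LOW K) (hCOV : T_COV K) :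
    T_COI K := by
  classical
  obtain ⟨c, hc, hL⟩ := hLOW
  obtain ⟨C2, hC2, hV⟩ := hCOV
  set d := dg K with hd
  have hd0 : 0 < d := Module.finrank_pos
  refine ⟨(2 * C2) ^ d * (1 + 2 / c), ?_, ?_⟩
  · have h1 : (1 : ℝ) ≤ (2 * C2) ^ d := one_le_pow₀ (by linarith)
    have h2 : (1 : ℝ) ≤ 1 + 2 / c := by
      have : 0 < 2 / c := by positivity
      linarith
    nlinarith
  intro 𝔤 θ h𝔤
  have hfin : Finite (𝓞 K ⧸ 𝔤) := 𝔤.finiteQuotientOfFreeOfNeBot h𝔤
  have hfint : Fintype (𝓞 K ⧸ 𝔤) := Fintype.ofFinite _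
  set N : ℕ := Ideal.absNorm 𝔤 with hN
  have hNc : Fintype.card (𝓞 K ⧸ 𝔤) = N := by
    rw [hN, Ideal.absNorm_apply, Submodule.cardQuot_apply, Nat.card_eq_fintype_card]
  have hN1 : 1 ≤ N := by
    rw [← hNc]
    exact Fintype.card_pos
  have hN1' : (1 : ℝ) ≤ N := by exact_mod_cast hN1
  set X : ℝ := (max 1 (2 * N / c)) ^ ((1 : ℝ) / d) with hX
  have hm1 : (1 : ℝ) ≤ max 1 (2 * N / c) := le_max_left _ _
  have hX1 : 1 ≤ X := Real.one_le_rpow hm1 (by positivity)
  have hXd : X ^ d = max 1 (2 * N / c) := by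
    rw [hX, ← Real.rpow_natCast, ← Real.rpow_mul (by linarith), one_div,
      inv_mul_cancel₀ (by positivity), Real.rpow_one]
  obtain ⟨S, hS1, hS2⟩ := hL X hX1
  have hcard : N < S.card := by
    have h1 : (2 : ℝ) * N ≤ c * X ^ d := by
      rw [hXd]
      have h2 : 2 * (N : ℝ) = c * (2 * N / c) := by field_simp
      calc (2 : ℝ) * N = c * (2 * N / c) := h2
        _ ≤ c * max 1 (2 * N / c) := mul_le_mul_of_nonneg_left (le_max_right _ _) hc.le
    have h3 : (N : ℝ) < S.card := by linarith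
    exact_mod_cast h3
  obtain ⟨s1, hs1, s2, hs2, hne, heq⟩ := Finset.exists_ne_map_eq_of_card_lt_of_maps_to
    (s := S) (t := (Finset.univ : Finset (𝓞 K ⧸ 𝔤)))
    (f := fun a => Ideal.Quotient.mk 𝔤 a) (by rw [Finset.card_univ, hNc]; exact hcard)
    (fun a _ => Finset.mem_univ _)
  set b : 𝓞 K := s1 - s2 with hb
  have hb𝔤 : b ∈ 𝔤 := Ideal.Quotient.eq.1 heq
  have hb0 : (b : K) ≠ 0 := by
    rw [Ne, RingOfIntegers.coe_eq_zero_iff]
    exact sub_ne_zero.2 hne
  have hbw : ∀ w : InfinitePlace K, w (b : K) ≤ 2 * X := by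
    intro w
    have h1 : (b : K) = (s1 : K) - (s2 : K) := by
      show algebraMap (𝓞 K) K (s1 - s2) = _
      rw [map_sub]
    rw [h1, ← InfinitePlace.norm_embedding_eq, map_sub]
    refine (norm_sub_le _ _).trans ?_
    rw [InfinitePlace.norm_embedding_eq, InfinitePlace.norm_embedding_eq]
    linarith [hS1 s1 hs1 w, hS1 s2 hs2 w]
  obtain ⟨a', ha'⟩ := hV (fun w => w.embedding (θ / b)) (by
    intro w hw
    have h1 := InfinitePlace.conjugate_embedding_eq_of_isReal hw
    have h2 := congrArg (fun φ : K →+* ℂ => φ (θ / b)) h1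
    exact Complex.conj_eq_iff_im.1 h2)
  refine ⟨a' * b, 𝔤.mul_mem_left a' hb𝔤, fun w => ?_⟩
  have h1 : w (θ / b - a') ≤ C2 := by
    have h2 := ha' w
    rw [← map_sub, InfinitePlace.norm_embedding_eq] at h2
    have h3 : w (θ / b - a') = w ((a' : K) - θ / b) := AbsoluteValue.map_sub w.1 _ _
    rw [h3]
    exact h2
  have h2 : θ - ((a' * b : 𝓞 K) : K) = b * (θ / b - a') := by
    have h3 : ((a' * b : 𝓞 K) : K) = (a' : K) * (b : K) := by
      show algebraMap (𝓞 K) K (a' * b) = _
      rw [map_mul]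
    rw [h3]
    field_simp
  have hw0 : ∀ x : K, 0 ≤ w x := fun x => apply_nonneg w x
  rw [h2, map_mul]
  calc (w (b : K) * w (θ / b - a')) ^ d ≤ (2 * X * C2) ^ d := by
        have := hw0 (b : K)
        have := hw0 (θ / b - a')
        have := hbw w
        gcongr
    _ = (2 * C2) ^ d * X ^ d := by rw [← mul_pow]; ring
    _ ≤ (2 * C2) ^ d * ((1 + 2 / c) * N) := by
        have h3 : X ^ d ≤ (1 + 2 / c) * N := by
          rw [hXd]
          have h4 : 0 ≤ 2 / c * (N : ℝ) := by positivity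
          have h5 : 2 * (N : ℝ) / c = 2 / c * N := by ring
          rw [h5, add_mul, one_mul]
          exact max_le (by linarith) (by linarith)
        gcongr
    _ = (2 * C2) ^ d * (1 + 2 / c) * N := by ring

end Pool.Agent.H58.RK
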