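import Pool.Agent.H32.RK.TargetsE
import Pool.Agent.H23.RQ.CRD

/-!
# Row CRD: the number of the pairs
-/

set_option autoImplicit false

open Finset NumberField Pool.Agent.H32.RQ Pool.Agent.H32.RK

namespace Pool.Agent.H58.RK

theorem card_bo (ι : Type) [Fintype ι] [DecidableEq ι] (A : ℕ) :
    (bo ι A).card = (2 * A + 1) ^ Fintype.card ι := by
  have h1 : (Finset.Icc (-(A : ℤ)) A).card = 2 * A + 1 := by
    rw [Int.card_Icc]
    omega
  unfold bo
  rw [Fintype.card_piFinset, Finset.prod_const, h1, Finset.card_univ]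

theorem pf_CRD : Pool.Agent.H32.RK.T_CRD := by
  intro ι _ _ s A
  refine ⟨Pool.Agent.H23.RQ.two_md s, ?_⟩
  unfold Pool.Agent.H32.RK.bx
  rw [Fintype.card_piFinset, Finset.prod_const, Fintype.card_piFinset, Finset.prod_const, card_bo,
    Finset.card_univ, Finset.card_univ, Fintype.card_fin, ← pow_mul, ← pow_mul]
  have h2 : Fintype.card ι * Fintype.card (Mon s) * 2 = 2 * md s * Fintype.card ι := by
    show Fintype.card ι * md s * 2 = 2 * md s * Fintype.card ι
    ring
  rw [← h2, mul_assoc]

end Pool.Agent.H58.RK
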