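import Pool.Agent.H32.RK.TargetsA
import Pool.Agent.H32.RK.TargetsE
import Pool.Agent.H23.RQ.PS1

/-!
# Row PS1: the pairs close to the special pair are robust
-/

set_option autoImplicit false

open Finset NumberField Pool.Agent.H32.RQ Pool.Agent.H32.RK

namespace Pool.Agent.H58.RK

open Pool.Agent.H23.RQ (qf_single dq_single)

section

variable {K : Type} [Field K] [NumberField K] {ι : Type} [Fintype ι]

theorem one_le_e1 (ω : Module.Basis ι ℤ (𝓞 K)) : 1 ≤ e1 ω := by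
  classical
  have h1 : ω.repr 1 ≠ 0 := by
    rw [Ne, LinearEquiv.map_eq_zero_iff]
    exact one_ne_zero
  obtain ⟨l, hl⟩ := Finsupp.ne_iff.1 h1
  have h2 : (1 : ℝ) ≤ |((ω.repr 1 l : ℤ) : ℝ)| := by
    have h3 : (1 : ℤ) ≤ |ω.repr 1 l| := Int.one_le_abs hl
    exact_mod_cast h3
  unfold e1
  exact h2.trans (Finset.single_le_sum (f := fun l => |((ω.repr 1 l : ℤ) : ℝ)|)
    (fun l _ => abs_nonneg _) (Finset.mem_univ l))

omit [NumberField K] in
theorem repr_le_e1 (ω : Module.Basis ι ℤ (𝓞 K)) (l : ι) :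
    |((ω.repr 1 l : ℤ) : ℝ)| ≤ e1 ω := by
  unfold e1
  exact Finset.single_le_sum (f := fun l => |((ω.repr 1 l : ℤ) : ℝ)|)
    (fun l _ => abs_nonneg _) (Finset.mem_univ l)

theorem emb_el (ω : Module.Basis ι ℤ (𝓞 K)) (v : ι → ℤ) (w : InfinitePlace K) :
    w.embedding (el ω v : K) = ∑ l, ((v l : ℝ) : ℂ) * w.embedding (ω l : K) := by
  have h1 : (el ω v : K) = ∑ l, ((v l : ℤ) : K) * (ω l : K) := by
    unfold el
    show algebraMap (𝓞 K) K (∑ l, v l • ω l) = _
    rw [map_sum]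
    refine Finset.sum_congr rfl fun l _ => ?_
    rw [zsmul_eq_mul, map_mul, map_intCast]
  rw [h1, map_sum]
  refine Finset.sum_congr rfl fun l _ => ?_
  rw [map_mul, map_intCast]
  push_cast
  rfl

theorem emb_one (ω : Module.Basis ι ℤ (𝓞 K)) (w : InfinitePlace K) :
    ∑ l, (((ω.repr 1 l : ℤ) : ℝ) : ℂ) * w.embedding (ω l : K) = 1 := by
  have h1 := emb_el ω (fun l => ω.repr 1 l) w
  have h2 : el ω (fun l => ω.repr 1 l) = 1 := by
    unfold el
    exact ω.sum_repr 1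
  rw [h2] at h1
  have h3 : ((1 : 𝓞 K) : K) = 1 := map_one (algebraMap (𝓞 K) K)
  rw [h3, map_one] at h1
  exact h1.symm

/-- the value is close to the real multiple of `1` -/
theorem emb_close (ω : Module.Basis ι ℤ (𝓞 K)) (v : ι → ℤ) (w : InfinitePlace K) (M δ : ℝ) (e : ℤ)
    (h : ∀ l, |(v l : ℝ) - M * ((e * ω.repr 1 l : ℤ) : ℝ)| ≤ δ) :
    ‖w.embedding (el ω v : K) - ((M * e : ℝ) : ℂ)‖ ≤ δ * ∑ l, w (ω l : K) := by
  have h1 : w.embedding (el ω v : K) - ((M * e : ℝ) : ℂ) =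
      ∑ l, (((v l : ℝ) - M * ((e * ω.repr 1 l : ℤ) : ℝ) : ℝ) : ℂ) * w.embedding (ω l : K) := by
    have h2 : ((M * e : ℝ) : ℂ) = ((M * e : ℝ) : ℂ) *
        ∑ l, (((ω.repr 1 l : ℤ) : ℝ) : ℂ) * w.embedding (ω l : K) := by
      rw [emb_one, mul_one]
    rw [emb_el, h2, Finset.mul_sum, ← Finset.sum_sub_distrib]
    refine Finset.sum_congr rfl fun l _ => ?_
    push_cast
    ring
  rw [h1, Finset.mul_sum]
  refine (norm_sum_le _ _).trans (Finset.sum_le_sum fun l _ => ?_)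
  rw [norm_mul, InfinitePlace.norm_embedding_eq, Complex.norm_real, Real.norm_eq_abs]
  exact mul_le_mul_of_nonneg_right (h l) (apply_nonneg w _)

end

theorem pf_PS1 (K : Type) [Field K] [NumberField K] (_hCMP : T_CMP K) : T_PS1 K := by
  classical
  intro ι _ _ ω s hs
  set C0 : ℝ := ∑ w : InfinitePlace K, ∑ l, w (ω l : K) with hC0
  have hw0 : ∀ (w : InfinitePlace K) (a : K), 0 ≤ w a := fun w a => apply_nonneg w a
  have hC0' : 0 ≤ C0 := Finset.sum_nonneg fun w _ => Finset.sum_nonneg fun l _ => hw0 w _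
  have hCw : ∀ w : InfinitePlace K, ∑ l, w (ω l : K) ≤ C0 := fun w =>
    Finset.single_le_sum (f := fun w : InfinitePlace K => ∑ l, w (ω l : K))
      (fun w _ => Finset.sum_nonneg fun l _ => hw0 w _) (Finset.mem_univ w)
  have he1 := one_le_e1 ω
  set E := e1 ω with hE
  have hE0 : 0 < E := by linarith
  refine ⟨C0 + 1, 1 / (8 * E ^ 2), 1 / (8 * E * (C0 + 1)), by linarith, by positivity,
    by positivity, ?_⟩
  intro 𝔳 A r c hr0 hr hc
  have hc' := (Finset.mem_filter.1 hc).2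
  set o : Fin s := ⟨0, by omega⟩ with ho
  set u : Fin s := ⟨1, by omega⟩ with hu
  set t : Fin s := ⟨2, by omega⟩ with ht
  have hou : o < u := by
    rw [Fin.lt_def]
    exact Nat.zero_lt_one
  have how : o < t := by
    rw [Fin.lt_def]
    exact Nat.zero_lt_two
  have e00 : ∀ i : Fin 2, cs s i ⟨(o, o), le_refl _⟩ = 0 := by
    intro i
    unfold cs
    refine if_neg fun h => ?_
    have h2 : (0 : ℕ) = i.val + 1 := h.2
    omega
  have e01 : cs s 0 ⟨(o, u), hou.le⟩ = 1 := by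
    unfold cs
    exact if_pos ⟨rfl, rfl⟩
  have e11 : cs s 1 ⟨(o, u), hou.le⟩ = 0 := by
    unfold cs
    refine if_neg fun h => ?_
    have h2 : (1 : ℕ) = 1 + 1 := h.2
    omega
  have e02 : cs s 0 ⟨(o, t), how.le⟩ = 0 := by
    unfold cs
    refine if_neg fun h => ?_
    have h2 : (2 : ℕ) = 0 + 1 := h.2
    omega
  have e12 : cs s 1 ⟨(o, t), how.le⟩ = 1 := by
    unfold cs
    exact if_pos ⟨rfl, rfl⟩
  have c00 := fun i => hc' i ⟨(o, o), le_refl _⟩
  have c01 := hc' 0 ⟨(o, u), hou.le⟩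
  have c11 := hc' 1 ⟨(o, u), hou.le⟩
  have c02 := hc' 0 ⟨(o, t), how.le⟩
  have c12 := hc' 1 ⟨(o, t), how.le⟩
  simp only [e00] at c00
  rw [e01] at c01
  rw [e11] at c11
  rw [e02] at c02
  rw [e12] at c12
  have hA : (0 : ℝ) ≤ A := Nat.cast_nonneg A
  set M : ℝ := A / (2 * E) with hM
  have hM0 : 0 ≤ M := by positivity
  set δ : ℝ := r * A * C0 with hδ
  have hδ0 : 0 ≤ δ := by positivity
  have hδM : δ ≤ M / 4 := by
    have h1 : r * C0 ≤ 1 / (8 * E) := by
      calc r * C0 ≤ 1 / (8 * E * (C0 + 1)) * (C0 + 1) := by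
            gcongr
            linarith
        _ = 1 / (8 * E) := by field_simp
    calc δ = A * (r * C0) := by rw [hδ]; ring
      _ ≤ A * (1 / (8 * E)) := by gcongr
      _ = M / 4 := by rw [hM]; field_simp; ring
  have hcl : ∀ (w : InfinitePlace K) (v : ι → ℤ) (e : ℤ),
      (∀ l, |(v l : ℝ) - M * ((e * ω.repr 1 l : ℤ) : ℝ)| ≤ r * A) →
      ‖w.embedding (el ω v : K) - ((M * e : ℝ) : ℂ)‖ ≤ δ := by
    intro w v e h
    refine (emb_close ω v w M (r * A) e h).trans ?_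
    rw [hδ]
    exact mul_le_mul_of_nonneg_left (hCw w) (by positivity)
  constructor
  · intro w
    refine ⟨fun j => if j = o then (1 : ℂ) else 0, fun _ j => ?_, fun j => ?_, ⟨o, ?_⟩,
      fun i => ?_, u, t, ?_⟩
    · dsimp only
      split_ifs <;> simp
    · dsimp only
      split_ifs <;> simp
    · simp
    · rw [qf_single]
      have h1 := hcl w (c i ⟨(o, o), le_refl _⟩) 0 (c00 i).2
      have h2 : ((M * (0 : ℤ) : ℝ) : ℂ) = 0 := by simp
      rw [h2, sub_zero] at h1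
      refine h1.trans ?_
      rw [hδ]
      nlinarith [mul_nonneg hr0.le hA]
    · unfold jm
      rw [dq_single o u hou, dq_single o t how, dq_single o u hou, dq_single o t how]
      have g1 := hcl w _ _ c01.2
      have g2 := hcl w _ _ c12.2
      have g3 := hcl w _ _ c02.2
      have g4 := hcl w _ _ c11.2
      have h2 : ((M * (0 : ℤ) : ℝ) : ℂ) = 0 := by simp
      have h3 : ((M * (1 : ℤ) : ℝ) : ℂ) = (M : ℂ) := by simp
      rw [h3] at g1 g2
      rw [h2, sub_zero] at g3 g4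
      show 1 / (8 * E ^ 2) * (A : ℝ) ^ 2 ≤
        ‖w.embedding (el ω (c 0 ⟨(o, u), hou.le⟩) : K) *
            w.embedding (el ω (c 1 ⟨(o, t), how.le⟩) : K) -
          w.embedding (el ω (c 0 ⟨(o, t), how.le⟩) : K) *
            w.embedding (el ω (c 1 ⟨(o, u), hou.le⟩) : K)‖
      set a : ℂ := w.embedding (el ω (c 0 ⟨(o, u), hou.le⟩) : K)
      set b : ℂ := w.embedding (el ω (c 1 ⟨(o, t), how.le⟩) : K)
      set e : ℂ := w.embedding (el ω (c 0 ⟨(o, t), how.le⟩) : K)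
      set g : ℂ := w.embedding (el ω (c 1 ⟨(o, u), hou.le⟩) : K)
      have hMn : ‖(M : ℂ)‖ = M := by
        rw [Complex.norm_real, Real.norm_eq_abs, abs_of_nonneg hM0]
      have na : 3 / 4 * M ≤ ‖a‖ := by
        have := norm_sub_norm_le (M : ℂ) a
        rw [hMn, norm_sub_rev] at this
        linarith
      have nb : 3 / 4 * M ≤ ‖b‖ := by
        have := norm_sub_norm_le (M : ℂ) b
        rw [hMn, norm_sub_rev] at this
        linarith
      have nab : (3 / 4 * M) * (3 / 4 * M) ≤ ‖a * b‖ := by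
        rw [norm_mul]
        exact mul_le_mul na nb (by positivity) (norm_nonneg _)
      have neg' : ‖e * g‖ ≤ (M / 4) * (M / 4) := by
        rw [norm_mul]
        exact mul_le_mul (g3.trans hδM) (g4.trans hδM) (norm_nonneg _) (by positivity)
      have h5 := norm_sub_norm_le (a * b) (e * g)
      have h6 : 1 / (8 * E ^ 2) * (A : ℝ) ^ 2 = M ^ 2 / 2 := by
        rw [hM]
        field_simp
        ring
      rw [h6]
      nlinarith
  · intro 𝔭 hp hp0 h𝔳
    have hp1 : (1 : 𝓞 K) ∉ 𝔭 := fun h => hp.ne_top ((Ideal.eq_top_iff_one _).2 h)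
    have h𝔳p : 𝔳 ≤ 𝔭 := h𝔳.trans (Ideal.pow_le_self two_ne_zero)
    refine ⟨fun j => if j = o then (1 : 𝓞 K) else 0, ⟨o, ?_⟩, fun i => ?_, u, t, ?_⟩
    · simpa using hp1
    · rw [qf_single, mul_one]
      have h1 := (c00 i).1
      rw [Int.cast_zero, sub_zero] at h1
      exact h𝔳 h1
    · unfold jm
      rw [dq_single o u hou, dq_single o t how, dq_single o u hou, dq_single o t how, pow_one]
      intro h
      have d1 := h𝔳p c01.1
      have d2 := h𝔳p c12.1
      have d3 := h𝔳p c02.1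
      have d4 := h𝔳p c11.1
      rw [Int.cast_zero, sub_zero] at d3 d4
      rw [Int.cast_one] at d1 d2
      set a := ec ω c 0 ⟨(o, u), hou.le⟩
      set b := ec ω c 1 ⟨(o, t), how.le⟩
      set e := ec ω c 0 ⟨(o, t), how.le⟩
      set g := ec ω c 1 ⟨(o, u), hou.le⟩
      apply hp1
      have h5 : (1 : 𝓞 K) = (a * b - e * g) - ((a - 1) * b + (b - 1) - e * g) := by ring
      rw [h5]
      exact 𝔭.sub_mem h (𝔭.sub_mem (𝔭.add_mem (𝔭.mul_mem_right _ d1) d2) (𝔭.mul_mem_right _ d3))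

end Pool.Agent.H58.RK
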