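import Pool.Agent.H58.RK.PS1

/-!
# Row PS2: the number of the pairs close to the special pair
-/

set_option autoImplicit false

open Finset NumberField Pool.Agent.H32.RQ Pool.Agent.H32.RK

namespace Pool.Agent.H58.RK

section

variable {K : Type} [Field K] [NumberField K] {ι : Type} [Fintype ι]

omit [NumberField K] in
theorem el_add (ω : Module.Basis ι ℤ (𝓞 K)) (u v : ι → ℤ) :
    el ω (fun l => u l + v l) = el ω u + el ω v := by
  unfold el
  rw [← Finset.sum_add_distrib]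
  exact Finset.sum_congr rfl fun l _ => add_smul _ _ _

omit [NumberField K] in
theorem el_sub (ω : Module.Basis ι ℤ (𝓞 K)) (u v : ι → ℤ) :
    el ω (fun l => u l - v l) = el ω u - el ω v := by
  unfold el
  rw [← Finset.sum_sub_distrib]
  exact Finset.sum_congr rfl fun l _ => sub_smul _ _ _

omit [NumberField K] in
theorem el_mul (ω : Module.Basis ι ℤ (𝓞 K)) (n : ℤ) (v : ι → ℤ) :
    el ω (fun l => n * v l) = (n : 𝓞 K) * el ω v := by
  unfold el
  rw [Finset.mul_sum]
  refine Finset.sum_congr rfl fun l _ => ?_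
  rw [mul_smul, zsmul_eq_mul]

omit [NumberField K] in
theorem el_repr (ω : Module.Basis ι ℤ (𝓞 K)) (a : 𝓞 K) : el ω (fun l => ω.repr a l) = a := by
  unfold el
  exact ω.sum_repr a

/-- many integral vectors in a cube with the value in a class -/
theorem ps2_one [DecidableEq ι] (ω : Module.Basis ι ℤ (𝓞 K)) (𝔳 : Ideal (𝓞 K)) (h𝔳 : 𝔳 ≠ ⊥)
    (ρ : ℝ) (hρ : (Ideal.absNorm 𝔳 : ℝ) ≤ 2 * ρ) (e : 𝓞 K) (z : ι → ℝ) :
    ∃ T : Finset (ι → ℤ), (ρ ^ Fintype.card ι / Ideal.absNorm 𝔳 : ℝ) ≤ T.card ∧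
      ∀ v ∈ T, el ω v - e ∈ 𝔳 ∧ ∀ l, |(v l : ℝ) - z l| ≤ 2 * ρ := by
  classical
  have hfin : Finite (𝓞 K ⧸ 𝔳) := 𝔳.finiteQuotientOfFreeOfNeBot h𝔳
  have hfint : Fintype (𝓞 K ⧸ 𝔳) := Fintype.ofFinite _
  set N : ℕ := Ideal.absNorm 𝔳 with hN
  have hNc : Fintype.card (𝓞 K ⧸ 𝔳) = N := by
    rw [hN, Ideal.absNorm_apply, Submodule.cardQuot_apply, Nat.card_eq_fintype_card]
  have hN1 : 1 ≤ N := by
    rw [← hNc]
    exact Fintype.card_pos
  have hN1' : (1 : ℝ) ≤ N := by exact_mod_cast hN1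
  have hρ0 : 0 ≤ ρ := by linarith
  set m : ℕ := ⌊ρ⌋₊ with hm
  have hm1 : (m : ℝ) ≤ ρ := Nat.floor_le hρ0
  have hm2 : ρ ≤ m + 1 := (Nat.lt_floor_add_one ρ).le
  set H : Finset (ι → ℤ) := Fintype.piFinset fun _ => Finset.Icc (0 : ℤ) m with hH
  have hHc : H.card = (m + 1) ^ Fintype.card ι := by
    rw [hH, Fintype.card_piFinset, Finset.prod_const, Int.card_Icc, Finset.card_univ]
    congr 1
  -- pigeonhole
  obtain ⟨y, -, hy⟩ := Finset.exists_le_card_fiber_of_nsmul_le_card_of_maps_to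
    (s := H) (t := (Finset.univ : Finset (𝓞 K ⧸ 𝔳)))
    (f := fun u => Ideal.Quotient.mk 𝔳 (el ω u)) (b := (ρ ^ Fintype.card ι / N : ℝ))
    (fun u _ => Finset.mem_univ _) ⟨0, Finset.mem_univ _⟩ (by
      rw [Finset.card_univ, hNc, nsmul_eq_mul, mul_div_cancel₀ _ (by linarith), hHc]
      push_cast
      exact pow_le_pow_left₀ hρ0 hm2 _)
  set Fy := H.filter (fun u => Ideal.Quotient.mk 𝔳 (el ω u) = y) with hFy
  by_cases hne : Fy.Nonempty
  · obtain ⟨u0, hu0⟩ := hne
    obtain ⟨hu0H, hu0y⟩ := Finset.mem_filter.1 hu0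
    -- the centre
    let a : ι → ℤ := fun l => ω.repr e l
    let k : ι → ℤ := fun l => round ((z l - a l) / N)
    let v0 : ι → ℤ := fun l => a l + (N : ℤ) * k l
    have hv0 : el ω v0 - e ∈ 𝔳 := by
      have h1 : el ω v0 = e + (N : 𝓞 K) * el ω k := by
        show el ω (fun l => a l + (N : ℤ) * k l) = _
        rw [el_add ω a (fun l => (N : ℤ) * k l), el_mul, el_repr]
        push_cast
        rfl
      rw [h1, add_sub_cancel_left]
      exact 𝔳.mul_mem_right _ (Ideal.absNorm_mem 𝔳)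
    have hv0z : ∀ l, |(v0 l : ℝ) - z l| ≤ N / 2 := by
      intro l
      have h1 : (v0 l : ℝ) - z l = N * (((k l : ℤ) : ℝ) - (z l - a l) / N) := by
        show (((a l + (N : ℤ) * k l : ℤ)) : ℝ) - z l = _
        push_cast
        field_simp
        ring
      rw [h1, abs_mul, abs_of_nonneg (by linarith : (0 : ℝ) ≤ N), abs_sub_comm]
      have h2 := abs_sub_round ((z l - a l) / N)
      calc (N : ℝ) * |(z l - a l) / N - ((k l : ℤ) : ℝ)| ≤ N * (1 / 2) := by
            exact mul_le_mul_of_nonneg_left h2 (by linarith)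
        _ = N / 2 := by ring
    refine ⟨Fy.image (fun u l => v0 l + (u l - u0 l)), ?_, ?_⟩
    · rw [Finset.card_image_of_injective]
      · exact hy
      · intro u u' huu
        funext l
        have h1 := congrFun huu l
        dsimp only at h1
        omega
    · intro v hv
      obtain ⟨u, hu, rfl⟩ := Finset.mem_image.1 hv
      obtain ⟨huH, huy⟩ := Finset.mem_filter.1 hu
      constructor
      · rw [el_add ω v0 (fun l => u l - u0 l), el_sub]
        have h1 : el ω u - el ω u0 ∈ 𝔳 := Ideal.Quotient.eq.1 (huy.trans hu0y.symm)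
        have h2 : el ω v0 + (el ω u - el ω u0) - e = (el ω v0 - e) + (el ω u - el ω u0) := by ring
        rw [h2]
        exact 𝔳.add_mem hv0 h1
      · intro l
        have h1 := Finset.mem_Icc.1 (Fintype.mem_piFinset.1 huH l)
        have h2 := Finset.mem_Icc.1 (Fintype.mem_piFinset.1 hu0H l)
        have h3 : |(((u l - u0 l : ℤ)) : ℝ)| ≤ m := by
          have h4 : |u l - u0 l| ≤ (m : ℤ) := by
            rw [abs_le]
            omega
          exact_mod_cast h4
        have h5 : ((v0 l + (u l - u0 l) : ℤ) : ℝ) - z l =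
            ((v0 l : ℝ) - z l) + ((u l - u0 l : ℤ) : ℝ) := by
          push_cast
          ring
        rw [h5]
        refine (abs_add_le _ _).trans ?_
        have := hv0z l
        linarith
  · rw [Finset.not_nonempty_iff_eq_empty] at hne
    refine ⟨∅, ?_, fun v hv => absurd hv (Finset.notMem_empty v)⟩
    rw [hne] at hy
    exact hy

end

theorem pf_PS2 (K : Type) [Field K] [NumberField K] (_hCMP : T_CMP K) (_hNRM : T_NRM K) :
    T_PS2 K := by
  classical
  intro ι _ _ ω s 𝔳 r h𝔳 hr0 hr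
  set N : ℕ := Ideal.absNorm 𝔳 with hN
  refine ⟨⌈(N : ℝ) / r⌉₊, fun A hA => ?_⟩
  have hA1 : (N : ℝ) / r ≤ A := (Nat.le_ceil _).trans (by exact_mod_cast hA)
  have hA0 : (0 : ℝ) ≤ A := Nat.cast_nonneg A
  have hNA : (N : ℝ) ≤ 2 * (r * A / 2) := by
    rw [div_le_iff₀ hr0] at hA1
    linarith
  have he1 := one_le_e1 ω
  set E := e1 ω with hE
  have hE0 : 0 < E := by linarith
  have hex : ∀ (i : Fin 2) (p : Mon s), ∃ T : Finset (ι → ℤ),
      ((r * A / 2) ^ Fintype.card ι / N : ℝ) ≤ T.card ∧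
      ∀ v ∈ T, el ω v - (cs s i p : 𝓞 K) ∈ 𝔳 ∧
        ∀ l, |(v l : ℝ) - A / (2 * E) * ((cs s i p * ω.repr 1 l : ℤ) : ℝ)| ≤ r * A := by
    intro i p
    obtain ⟨T, hT1, hT2⟩ := ps2_one ω 𝔳 h𝔳 (r * A / 2) hNA (cs s i p : 𝓞 K)
      (fun l => A / (2 * E) * ((cs s i p * ω.repr 1 l : ℤ) : ℝ))
    refine ⟨T, hT1, fun v hv => ⟨(hT2 v hv).1, fun l => ?_⟩⟩
    have h1 := (hT2 v hv).2 l
    have h2 : 2 * (r * (A : ℝ) / 2) = r * A := by ring
    rwa [h2] at h1
  choose T hT1 hT2 using hex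
  have hsub : (Fintype.piFinset fun i => Fintype.piFinset fun p => T i p) ⊆ Pool.Agent.H32.RK.sp ω s 𝔳 A r := by
    intro c hc
    have hc' : ∀ i p, c i p ∈ T i p := fun i p =>
      Fintype.mem_piFinset.1 (Fintype.mem_piFinset.1 hc i) p
    unfold Pool.Agent.H32.RK.sp
    rw [Finset.mem_filter]
    refine ⟨?_, fun i p => hT2 i p (c i p) (hc' i p)⟩
    unfold Pool.Agent.H32.RK.bx bo
    rw [Fintype.mem_piFinset]
    intro i
    rw [Fintype.mem_piFinset]
    intro p
    rw [Fintype.mem_piFinset]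
    intro l
    have h1 := (hT2 i p (c i p) (hc' i p)).2 l
    have h2 : |A / (2 * E) * ((cs s i p * ω.repr 1 l : ℤ) : ℝ)| ≤ A / 2 := by
      have h3 : |((cs s i p : ℤ) : ℝ)| ≤ 1 := by
        unfold cs
        split_ifs <;> simp
      have h4 := repr_le_e1 ω l
      push_cast
      rw [abs_mul, abs_mul, abs_of_nonneg (by positivity : (0 : ℝ) ≤ A / (2 * E))]
      calc (A : ℝ) / (2 * E) * (|((cs s i p : ℤ) : ℝ)| * |((ω.repr 1 l : ℤ) : ℝ)|) ≤
          (A : ℝ) / (2 * E) * (1 * E) := by gcongr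
        _ = A / 2 := by field_simp
    have h3 : |((c i p l : ℤ) : ℝ)| ≤ A := by
      have h4 : r * A ≤ A / 2 := by nlinarith
      have h5 : ((c i p l : ℤ) : ℝ) = (((c i p l : ℤ) : ℝ) -
          A / (2 * E) * ((cs s i p * ω.repr 1 l : ℤ) : ℝ)) +
          A / (2 * E) * ((cs s i p * ω.repr 1 l : ℤ) : ℝ) := by ring
      rw [h5]
      refine (abs_add_le _ _).trans ?_
      linarith
    have h6 : |c i p l| ≤ (A : ℤ) := by exact_mod_cast h3
    rw [abs_le] at h6
    exact Finset.mem_Icc.2 h6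
  have hcard : (((r * A / 2) ^ Fintype.card ι / N : ℝ)) ^ (2 * md s) ≤
      ((Fintype.piFinset fun i : Fin 2 => Fintype.piFinset fun p : Mon s => T i p).card : ℝ) := by
    rw [Fintype.card_piFinset]
    have h0 : (0 : ℝ) ≤ (r * A / 2) ^ Fintype.card ι / N := by positivity
    push_cast
    have h1 : ∀ i : Fin 2, (((r * A / 2) ^ Fintype.card ι / N : ℝ)) ^ (md s) ≤
        ((Fintype.piFinset fun p : Mon s => T i p).card : ℝ) := by
      intro i
      rw [Fintype.card_piFinset]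
      push_cast
      have h2 : (((r * A / 2) ^ Fintype.card ι / N : ℝ)) ^ (md s) =
          ∏ p : Mon s, ((r * A / 2) ^ Fintype.card ι / N : ℝ) := by
        rw [Finset.prod_const, Finset.card_univ]
      rw [h2]
      exact Finset.prod_le_prod (fun p _ => h0) fun p _ => hT1 i p
    calc (((r * A / 2) ^ Fintype.card ι / N : ℝ)) ^ (2 * md s) =
        ∏ i : Fin 2, (((r * A / 2) ^ Fintype.card ι / N : ℝ)) ^ (md s) := by
          rw [Finset.prod_const, Finset.card_univ, Fintype.card_fin, ← pow_mul,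
            mul_comm (md s) 2]
      _ ≤ _ := Finset.prod_le_prod (fun i _ => pow_nonneg h0 _) fun i _ => h1 i
  exact hcard.trans (by exact_mod_cast Finset.card_le_card hsub)

end Pool.Agent.H58.RK
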